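import Pool.Agent.H709.OW.Main

set_option autoImplicit false

/-!
# Lowness for Oberwolfach randomness

Problem MP_e7a618_lc, question Q1: a set `A` is low for Oberwolfach randomness if and only if it
is K-trivial.  The new direction is that every K-trivial set is low for Oberwolfach randomness.
Oracles and sets are given by their characteristic sequences `ℕ → Bool`.
-/

namespace Pool.Agent.Results.MP_e7a618_lc.LowIffKTrivial

open Pool.Agent.Helper227 MeasureTheory Encodable

/-- The function `f` is computable relative to `A`. -/
def ComputableIn (A : ℕ → Bool) (f : ℕ → ℕ) : Prop :=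
  TuringReducible (fun n => Part.some (f n)) (chi A)

/-- `β` is an `A`-computable sequence of rationals. -/
def ComputableRatSeq (A : ℕ → Bool) (β : ℕ → ℚ) : Prop :=
  ∃ f g h : ℕ → ℕ, ComputableIn A f ∧ ComputableIn A g ∧ ComputableIn A h ∧
    ∀ n, β n = ((f n : ℚ) - (g n : ℚ)) / ((h n : ℚ) + 1)

/-- `G 0, G 1, ...` is a sequence of subsets of Cantor space which are `Σ⁰₁` relative to `A`,
uniformly: for some set `W` which is c.e. relative to `A`, the set `G n` is the union of the basic
open sets given by the strings `σ` with `⟨n, σ⟩ ∈ W`. -/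
def UniformlySigma (A : ℕ → Bool) (G : ℕ → Set (ℕ → Bool)) : Prop :=
  ∃ W : Set ℕ, CEIn A W ∧
    ∀ n, G n = ⋃ σ ∈ {σ : List Bool | Nat.pair n (encode σ) ∈ W}, cyl σ

/-- `G` is (the sequence of open sets of) a left-c.e. test relative to `A`: it is descending and
uniformly `Σ⁰₁` relative to `A`, and there are an `A`-computable increasing sequence of rationals
`β 0 < β 1 < ...` with supremum `b` and a constant `c` such that the measure of `G m` is at most
`c * (b - β m)` for all `m`. -/
def IsLeftCETest (A : ℕ → Bool) (G : ℕ → Set (ℕ → Bool)) : Prop :=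
  UniformlySigma A G ∧ Antitone G ∧
    ∃ (β : ℕ → ℚ) (b : ℝ) (c : ℕ), ComputableRatSeq A β ∧ StrictMono β ∧
      IsLUB (Set.range fun s => (β s : ℝ)) b ∧ ∀ m, lam (G m) ≤ ENNReal.ofReal (c * (b - β m))

/-- `Z` is Oberwolfach random relative to `A`: it is in the intersection of no left-c.e. test
relative to `A`. -/
def OWRandom (A Z : ℕ → Bool) : Prop :=
  ∀ G : ℕ → Set (ℕ → Bool), IsLeftCETest A G → Z ∉ ⋂ m, G m

/-- `A` is low for Oberwolfach randomness: every Oberwolfach random set (that is, random relative
to the empty set) is Oberwolfach random relative to `A`. -/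
def LowForOW (A : ℕ → Bool) : Prop := ∀ Z, OWRandom (fun _ => false) Z → OWRandom A Z

/-- For every universal prefix-free machine `U` and every set `A`: `A` is low for Oberwolfach
randomness if and only if `A` is K-trivial. -/
theorem result (U : List Bool →. List Bool) (hU : IsUniversal U) (A : ℕ → Bool) :
    LowForOW A ↔ KTrivial U A :=
  ⟨fun h => Pool.Agent.H709.OW.kt_of_ow hU h, fun h => Pool.Agent.H709.OW.ow_of_kt hU h⟩

end Pool.Agent.Results.MP_e7a618_lc.LowIffKTrivial
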